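import Pool.Agent.helper81.UH.Spec

/-!
# Project uh (MP_a2a22c_al), row ZZK: the vector `zz` and the equivariance of the coincidence element
-/

set_option autoImplicit false

namespace Pool.Agent.UH

open Matrix Pool.Agent.H48SL Pool.Agent.UG

theorem ZZK_dot {n : ℕ} (f : Fin (n + 1) → ℚ) (h : SLZ (n + 1)) (v : Fin (n + 1) → ℚ) :
    f ⬝ᵥ (qg h⁻¹ *ᵥ v) = fh f h ⬝ᵥ v := by
  rw [Matrix.dotProduct_mulVec]
  rfl

theorem ZZK_one {n : ℕ} (f : Fin (n + 1) → ℚ) (h g : SLZ (n + 1)) (a b c : Fin (n + 1) → ℚ) :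
    fh f h ⬝ᵥ zz f h g a b c = 0 := by
  unfold zz
  rw [dotProduct_add, dotProduct_add, dotProduct_smul, dotProduct_smul, dotProduct_smul, smul_eq_mul,
    smul_eq_mul, smul_eq_mul]
  ring

theorem ZZK_two {n : ℕ} (f : Fin (n + 1) → ℚ) (h g : SLZ (n + 1)) (a b c : Fin (n + 1) → ℚ) :
    fh f g ⬝ᵥ zz f h g a b c = 0 := by
  unfold zz
  rw [dotProduct_add, dotProduct_add, dotProduct_smul, dotProduct_smul, dotProduct_smul, smul_eq_mul,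
    smul_eq_mul, smul_eq_mul]
  ring

theorem ZZK_inv {n : ℕ} (s h : SLZ (n + 1)) : qg (s * h)⁻¹ = qg h⁻¹ * qg s⁻¹ := by
  rw [_root_.mul_inv_rev, qg_mul]

theorem ZZK_cancel {n : ℕ} (s h : SLZ (n + 1)) (v : Fin (n + 1) → ℚ) :
    qg (s * h)⁻¹ *ᵥ (qg s *ᵥ v) = qg h⁻¹ *ᵥ v := by
  rw [ZZK_inv, Matrix.mulVec_mulVec, Matrix.mul_assoc, qg_inv_mul, Matrix.mul_one]

theorem ZZK_fh {n : ℕ} (f : Fin (n + 1) → ℚ) (s h : SLZ (n + 1)) (v : Fin (n + 1) → ℚ) :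
    fh f (s * h) ⬝ᵥ (qg s *ᵥ v) = fh f h ⬝ᵥ v := by
  rw [← ZZK_dot, ZZK_cancel, ZZK_dot]

theorem ZZK_zz {n : ℕ} (f : Fin (n + 1) → ℚ) (s h g : SLZ (n + 1)) (a b c : Fin (n + 1) → ℚ) :
    zz f (s * h) (s * g) (qg s *ᵥ a) (qg s *ᵥ b) (qg s *ᵥ c) = qg s *ᵥ zz f h g a b c := by
  unfold zz
  simp only [ZZK_fh, Matrix.mulVec_add, Matrix.mulVec_smul]

theorem ZZK : ZZK_stmt := by
  intro n N X f h g a b c
  refine ⟨?_, ?_, ?_⟩
  · rw [ZZK_dot, ZZK_one]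
  · rw [ZZK_dot, ZZK_two]
  · intro s t hs
    have hs' : qg s *ᵥ e0 n = e0 n := hs
    have h1 : qg s⁻¹ *ᵥ e0 n = e0 n := by
      conv_lhs => rw [← hs']
      rw [Matrix.mulVec_mulVec, qg_inv_mul, Matrix.one_mulVec]
    have h2 : ∀ k : SLZ (n + 1), yv (s * k) = yv k := by
      intro k
      unfold yv
      rw [ZZK_inv, ← Matrix.mulVec_mulVec, h1]
    have h3 : ∀ Y : MQ (n + 1), qg s⁻¹ * (qg s * Y) = Y := by
      intro Y
      rw [← Matrix.mul_assoc, qg_inv_mul, Matrix.one_mul]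
    refine ⟨h2 h, ?_⟩
    unfold SS
    rw [h2, h2, ZZK_zz, ZZK_cancel, ZZK_cancel, ZZK_inv, ZZK_inv, qg_mul, qg_mul]
    simp only [Matrix.mul_assoc, h3]

end Pool.Agent.UH
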